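import Mathlib
import Pool.Agent.TH220.NT.Comb
import Pool.Agent.Y570.LS.Ent

/-!
# Binary codes and clusters: averaging over balls (helper180, MP_0430e4_lc)
-/

set_option autoImplicit false

namespace Pool.Agent.U180.BC

open Finset

abbrev Word (n : ℕ) := Fin n → Bool

/-- every set of words of `C` with mutual distances less than `D` has at most `K` words -/
def ClusterLE {n : ℕ} (C : Finset (Word n)) (D : ℝ) (K : ℕ) : Prop :=
  ∀ Q ⊆ C, (∀ x ∈ Q, ∀ y ∈ Q, x ≠ y → (hammingDist x y : ℝ) < D) → Q.card ≤ K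

/-- the number of words at distance at most `w` from a word -/
def ball (n w : ℕ) : ℕ := ∑ i ∈ range (w + 1), n.choose i

/-- symmetric difference -/
def tr {n : ℕ} (t x : Word n) : Word n := fun i => xor (t i) (x i)

lemma tr_tr {n : ℕ} (t x : Word n) : tr t (tr t x) = x := by
  funext i
  unfold tr
  cases t i <;> cases x i <;> rfl

def wt {n : ℕ} (x : Word n) : ℕ := (univ.filter fun i => x i = true).card

lemma wt_tr {n : ℕ} (x y : Word n) : wt (tr x y) = hammingDist x y := by
  unfold wt hammingDist tr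
  congr 1
  ext i
  simp only [mem_filter, mem_univ, true_and]
  cases x i <;> cases y i <;> simp

lemma card_wt (n w : ℕ) :
    (univ.filter fun v : Word n => wt v = w).card = n.choose w := by
  classical
  rw [← Finset.card_fin n, ← Finset.card_powersetCard, Finset.card_fin]
  refine Finset.card_bij (fun v _ => univ.filter fun i => v i = true) ?_ ?_ ?_
  · intro v hv
    rw [Finset.mem_filter] at hv
    rw [Finset.mem_powersetCard]
    exact ⟨Finset.subset_univ _, hv.2⟩
  · intro v _ u _ h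
    funext i
    have : i ∈ (univ.filter fun i => v i = true) ↔ i ∈ (univ.filter fun i => u i = true) := by
      rw [h]
    simp only [Finset.mem_filter, Finset.mem_univ, true_and] at this
    rcases hv : v i with _ | _ <;> rcases hu : u i with _ | _ <;> simp_all
  · intro s hs
    rw [Finset.mem_powersetCard] at hs
    refine ⟨fun i => decide (i ∈ s), ?_, ?_⟩
    · rw [Finset.mem_filter]
      refine ⟨Finset.mem_univ _, ?_⟩
      unfold wt
      simp [hs.2]
    · simp

lemma card_wt_lt (n d : ℕ) :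
    (univ.filter fun v : Word n => wt v < d).card = ∑ i ∈ range d, n.choose i := by
  classical
  rw [← Finset.sum_congr rfl (fun i _ => card_wt n i), ← Finset.card_biUnion]
  · congr 1
    ext v
    simp
  · intro i _ j _ hij
    rw [Function.onFun, Finset.disjoint_left]
    intro v hv hv'
    simp only [mem_filter, mem_univ, true_and] at hv hv'
    exact hij (hv.symm.trans hv')

lemma card_near (n d : ℕ) (y : Word n) :
    (univ.filter fun x : Word n => hammingDist x y < d).card = ∑ i ∈ range d, n.choose i := by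
  classical
  rw [← card_wt_lt]
  refine Finset.card_bij (fun x _ => tr y x) ?_ ?_ ?_
  · intro x hx
    rw [mem_filter] at hx ⊢
    refine ⟨mem_univ _, ?_⟩
    rw [wt_tr, hammingDist_comm]
    exact hx.2
  · intro a _ b _ h
    have := congrArg (tr y) h
    rwa [tr_tr, tr_tr] at this
  · intro v hv
    rw [mem_filter] at hv
    refine ⟨tr y v, ?_, tr_tr y v⟩
    rw [mem_filter, hammingDist_comm, ← wt_tr, tr_tr]
    exact ⟨mem_univ _, hv.2⟩

lemma card_ball (n w : ℕ) (y : Word n) :
    (univ.filter fun x : Word n => hammingDist x y ≤ w).card = ball n w := by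
  unfold ball
  rw [← card_near n (w + 1) y]
  congr 1
  ext x
  simp

/-- averaging over the balls of radius `w` -/
lemma averaging {n : ℕ} (C : Finset (Word n)) (w N : ℕ)
    (h : ∀ y : Word n, (C.filter fun x => hammingDist x y ≤ w).card ≤ N) :
    C.card * ball n w ≤ N * 2 ^ n := by
  classical
  have h1 : ∑ y : Word n, (C.filter fun x => hammingDist x y ≤ w).card ≤ ∑ _y : Word n, N :=
    Finset.sum_le_sum fun y _ => h y
  have h2 : ∑ y : Word n, (C.filter fun x => hammingDist x y ≤ w).card = C.card * ball n w := by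
    simp_rw [Finset.card_filter]
    rw [Finset.sum_comm, ← smul_eq_mul, ← Finset.sum_const]
    apply Finset.sum_congr rfl
    intro x _
    rw [← Finset.card_filter, ← card_ball n w x]
    congr 1
    ext y
    rw [mem_filter, mem_filter, hammingDist_comm]
  rw [h2] at h1
  simpa [mul_comm] using h1

/-! ### sets of words in a ball with large mutual distances -/

/-- the sum of the mutual distances of a set of words -/
lemma sum_dist {n : ℕ} (Q : Finset (Word n)) (y : Word n) :
    ∑ x ∈ Q, ∑ x' ∈ Q, (hammingDist x x' : ℝ) =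
      ∑ i : Fin n, 2 * ((Q.filter fun x => x i ≠ y i).card : ℝ) *
        (Q.card - (Q.filter fun x => x i ≠ y i).card) := by
  classical
  have h1 : ∀ x x' : Word n, (hammingDist x x' : ℝ) = ∑ i : Fin n, if x i ≠ x' i then (1 : ℝ) else 0 := by
    intro x x'
    unfold hammingDist
    rw [Finset.card_filter]
    push_cast
    rfl
  have h2 : ∑ x ∈ Q, ∑ x' ∈ Q, (hammingDist x x' : ℝ) =
      ∑ i : Fin n, ∑ x ∈ Q, ∑ x' ∈ Q, (if x i ≠ x' i then (1 : ℝ) else 0) := by
    symm
    rw [Finset.sum_comm]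
    refine Finset.sum_congr rfl fun x _ => ?_
    rw [Finset.sum_comm]
    exact Finset.sum_congr rfl fun x' _ => (h1 x x').symm
  rw [h2]
  refine Finset.sum_congr rfl fun i _ => ?_
  have h3 : ∀ x x' : Word n, (if x i ≠ x' i then (1 : ℝ) else 0) =
      (if x i ≠ y i then 1 else 0) * (1 - if x' i ≠ y i then 1 else 0) +
      (1 - if x i ≠ y i then 1 else 0) * (if x' i ≠ y i then 1 else 0) := by
    intro x x'
    have hb : ∀ a b c : Bool, (if a ≠ b then (1 : ℝ) else 0) =
        (if a ≠ c then 1 else 0) * (1 - if b ≠ c then 1 else 0) +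
        (1 - if a ≠ c then 1 else 0) * (if b ≠ c then 1 else 0) := by
      intro a b c
      cases a <;> cases b <;> cases c <;> norm_num
    exact hb _ _ _
  rw [Finset.sum_congr rfl fun x _ => Finset.sum_congr rfl fun x' _ => h3 x x']
  have h4 : ∑ x ∈ Q, (if x i ≠ y i then (1 : ℝ) else 0) = (Q.filter fun x => x i ≠ y i).card := by
    rw [Finset.card_filter]
    push_cast
    rfl
  have h5 : ∑ x ∈ Q, (1 - if x i ≠ y i then (1 : ℝ) else 0) =
      Q.card - (Q.filter fun x => x i ≠ y i).card := by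
    rw [Finset.sum_sub_distrib, h4]
    simp
  simp_rw [Finset.sum_add_distrib, ← Finset.mul_sum, ← Finset.sum_mul]
  rw [h4, h5]
  ring

/-- A set of words in a ball of radius `w ≤ n / 2` with mutual distances at least `D`. -/
lemma plotkin {n w : ℕ} (hw : 2 * w ≤ n) {D : ℝ} (hD0 : 0 ≤ D) {Q : Finset (Word n)} {y : Word n}
    (hQ : ∀ x ∈ Q, hammingDist x y ≤ w)
    (hD : ∀ x ∈ Q, ∀ x' ∈ Q, x ≠ x' → D ≤ (hammingDist x x' : ℝ)) :
    ((Q.card : ℝ) - 1) * D * n ≤ 2 * Q.card * (w * (n - w)) := by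
  classical
  obtain ⟨a, ha⟩ : ∃ a : Fin n → ℝ, a = fun i => ((Q.filter fun x => x i ≠ y i).card : ℝ) :=
    ⟨_, rfl⟩
  have ha' : ∀ i, ((Q.filter fun x => x i ≠ y i).card : ℝ) = a i := fun i => by rw [ha]
  have h1 := sum_dist Q y
  simp_rw [ha'] at h1
  -- lower bound for the sum of the distances
  have h2 : (Q.card : ℝ) * ((Q.card - 1) * D) ≤ ∑ x ∈ Q, ∑ x' ∈ Q, (hammingDist x x' : ℝ) := by
    rw [← nsmul_eq_mul, ← Finset.sum_const]
    refine Finset.sum_le_sum fun x hx => ?_
    rw [← Finset.sum_erase_add _ _ hx, hammingDist_self]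
    have : ((Q.card : ℝ) - 1) * D = ∑ x' ∈ Q.erase x, D := by
      rw [Finset.sum_const, Finset.card_erase_of_mem hx, nsmul_eq_mul,
        Nat.cast_sub (Finset.card_pos.2 ⟨x, hx⟩), Nat.cast_one]
    rw [this]
    simp only [Nat.cast_zero, add_zero]
    refine Finset.sum_le_sum fun x' hx' => ?_
    rw [Finset.mem_erase] at hx'
    exact hD x hx x' hx'.2 (Ne.symm hx'.1)
  -- the sum of the `a i`
  have h3 : ∑ i, a i = ∑ x ∈ Q, (hammingDist x y : ℝ) := by
    have e1 : ∀ i, a i = ∑ x ∈ Q, if x i ≠ y i then (1 : ℝ) else 0 := by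
      intro i
      rw [← ha' i, Finset.card_filter]
      push_cast
      rfl
    rw [Finset.sum_congr rfl fun i _ => e1 i, Finset.sum_comm]
    refine Finset.sum_congr rfl fun x _ => ?_
    unfold hammingDist
    rw [Finset.card_filter]
    push_cast
    rfl
  have h4 : ∑ i, a i ≤ Q.card * w := by
    rw [h3, ← nsmul_eq_mul, ← Finset.sum_const]
    exact Finset.sum_le_sum fun x hx => by exact_mod_cast hQ x hx
  have h4' : 0 ≤ ∑ i, a i := Finset.sum_nonneg fun i _ => by
    rw [← ha' i]
    exact Nat.cast_nonneg _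
  have h5 : (∑ i, a i) ^ 2 ≤ n * ∑ i, a i ^ 2 := by
    have := sq_sum_le_card_mul_sum_sq (s := (univ : Finset (Fin n))) (f := a)
    simpa using this
  have h6 : ∑ i, 2 * a i * (Q.card - a i) = 2 * (Q.card * ∑ i, a i) - 2 * ∑ i, a i ^ 2 := by
    rw [Finset.mul_sum, Finset.mul_sum, Finset.mul_sum, ← Finset.sum_sub_distrib]
    refine Finset.sum_congr rfl fun i _ => ?_
    ring
  rw [h6] at h1
  obtain ⟨S, hS⟩ : ∃ S, S = ∑ i, a i := ⟨_, rfl⟩
  obtain ⟨q, hq⟩ : ∃ q : ℝ, q = Q.card := ⟨_, rfl⟩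
  rw [← hS] at h1 h4 h4' h5
  rw [← hq] at h1 h2 h4 ⊢
  have hw' : 2 * (w : ℝ) ≤ n := by exact_mod_cast hw
  have hw0 : (0 : ℝ) ≤ w := Nat.cast_nonneg _
  have hn0 : (0 : ℝ) ≤ n := Nat.cast_nonneg _
  have hq0 : 0 ≤ q := by rw [hq]; positivity
  rcases hq0.eq_or_lt with h0 | h0
  · rw [← h0]
    nlinarith [mul_nonneg hD0 hn0]
  · have h7 : q * ((q - 1) * D) * n ≤ 2 * (q * S * n - S ^ 2) := by
      have : q * ((q - 1) * D) ≤ 2 * (q * S) - 2 * ∑ i, a i ^ 2 := h2.trans h1.le
      nlinarith
    have h8 : q * S * n - S ^ 2 ≤ q ^ 2 * (w * (n - w)) := by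
      have : 0 ≤ (q * w - S) * (q * n - S - q * w) := by
        refine mul_nonneg (by linarith) ?_
        nlinarith
      nlinarith
    have h9 : q * (((q - 1) * D) * n) ≤ q * (2 * q * (w * (n - w))) := by nlinarith
    exact le_of_mul_le_mul_left h9 h0

/-- A ball of radius `w` contains few words of a code with small clusters. -/
lemma ball_count {n w K m : ℕ} (hw : 2 * w ≤ n) {D : ℝ} (hD0 : 0 ≤ D) {C : Finset (Word n)}
    (hK : ClusterLE C D K) (hm : 1 ≤ m)
    (hDm : 2 * (m + 1) * ((w : ℝ) * (n - w)) < m * D * n) (y : Word n) :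
    (C.filter fun x => hammingDist x y ≤ w).card ≤ (K + m).choose m := by
  have h := Pool.Agent.TH220.NT.ramsey (fun x y : Word n => (hammingDist x y : ℝ) < D)
    (fun x y h => by rw [hammingDist_comm]; exact h) (K + m) K m le_rfl
    (C.filter fun x => hammingDist x y ≤ w)
    (fun Q hQ hQ' => hK Q (hQ.trans (filter_subset _ _)) hQ')
    (fun Q hQ hQ' => by
      by_contra hcon
      push Not at hcon
      have h1 := plotkin hw hD0 (Q := Q) (y := y) (fun x hx => (mem_filter.1 (hQ hx)).2)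
        (fun x hx x' hx' hne => not_lt.1 (hQ' x hx x' hx' hne))
      have h2 : ((m : ℝ) + 1) ≤ Q.card := by exact_mod_cast hcon
      obtain ⟨q, hq⟩ : ∃ q : ℝ, q = Q.card := ⟨_, rfl⟩
      rw [← hq] at h1 h2
      have hm0 : (1 : ℝ) ≤ m := by exact_mod_cast hm
      have hw' : 2 * (w : ℝ) ≤ n := by exact_mod_cast hw
      have hw0 : (0 : ℝ) ≤ w := Nat.cast_nonneg _
      obtain ⟨v, hv⟩ : ∃ v : ℝ, v = (w : ℝ) * (n - w) := ⟨_, rfl⟩
      have hv0 : 0 ≤ v := by
        rw [hv]
        exact mul_nonneg hw0 (by linarith)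
      rw [← hv] at h1 hDm
      obtain ⟨u, hu⟩ : ∃ u : ℝ, u = D * n := ⟨_, rfl⟩
      have h1' : (q - 1) * u ≤ 2 * q * v := by rw [hu]; linarith
      have h3' : 2 * ((m : ℝ) + 1) * v < m * u := by rw [hu]; linarith
      -- `u > 2 (m + 1) v / m ≥ 2 q v / (q - 1)`
      have h4 : (q - 1) * (m * u) ≤ m * (2 * q * v) := by nlinarith
      have h5 : (q - 1) * (2 * (m + 1) * v) < (q - 1) * (m * u) :=
        mul_lt_mul_of_pos_left h3' (by linarith)
      have h6 : 0 ≤ (q - (m + 1)) * v := mul_nonneg (by linarith) hv0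
      nlinarith)
  rw [Nat.choose_symm_add] at h
  exact (Nat.le_succ _).trans h

/-- **The inequality in length `n`.** -/
theorem cluster_bound {n w K m : ℕ} (hw : 2 * w ≤ n) {D : ℝ} (hD0 : 0 ≤ D) {C : Finset (Word n)}
    (hK : ClusterLE C D K) (hm : 1 ≤ m)
    (hDm : 2 * (m + 1) * ((w : ℝ) * (n - w)) < m * D * n) :
    C.card * ball n w ≤ (K + m).choose m * 2 ^ n :=
  averaging C w _ fun y => ball_count hw hD0 hK hm hDm y

end Pool.Agent.U180.BC
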